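import Mathlib
import Pool.Agent.N754.GF.Stm

/-!
Project GF (helper754), part ALG (helper674): a polynomial in logarithmic variables and its derivative are
coprime.
-/

set_option autoImplicit false

open MvPolynomial

namespace Pool.Agent.N674.GF

section
variable {κ L : Type} [Field κ] [Field L] [Algebra κ L] {r : ℕ}

/-- the derivative of a monomial in the variables `w` -/
lemma der_pow (δ : Derivation ℤ L L) {x : L} {c : κ} (h : δ x = algebraMap κ L c * x) (n : ℕ) :
    δ (x ^ n) = algebraMap κ L (n * c) * x ^ n := by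
  induction n with
  | zero => simp
  | succ n ih =>
    rw [pow_succ, Derivation.leibniz, ih, h, smul_eq_mul, smul_eq_mul, Nat.cast_succ, map_mul,
      map_mul, map_add, map_one]
    ring

lemma der_prod (δ : Derivation ℤ L L) {w : Fin r → L} {c : Fin r → κ}
    (h : ∀ i, δ (w i) = algebraMap κ L (c i) * w i) (m : Fin r →₀ ℕ) (s : Finset (Fin r)) :
    δ (∏ i ∈ s, w i ^ m i) = algebraMap κ L (∑ i ∈ s, m i * c i) * ∏ i ∈ s, w i ^ m i := by
  classical
  induction s using Finset.induction_on with
  | empty => simp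
  | insert a s ha ih =>
    rw [Finset.prod_insert ha, Finset.sum_insert ha, Derivation.leibniz, ih, der_pow δ (h a),
      smul_eq_mul, smul_eq_mul, map_add]
    ring

/-- the weight of a monomial -/
def lam (c : Fin r → κ) (m : Fin r →₀ ℕ) : κ := ∑ i, m i * c i

lemma aeval_mon (w : Fin r → L) (m : Fin r →₀ ℕ) (a : κ) :
    aeval w (monomial m a) = algebraMap κ L a * ∏ i, w i ^ m i := by
  rw [aeval_monomial, Finsupp.prod_fintype]
  intro i
  exact pow_zero _

lemma der_mon (δ : Derivation ℤ L L) {w : Fin r → L} {c : Fin r → κ} {d : κ → κ}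
    (h : ∀ i, δ (w i) = algebraMap κ L (c i) * w i)
    (hd : ∀ a, δ (algebraMap κ L a) = algebraMap κ L (d a)) (m : Fin r →₀ ℕ) (a : κ) :
    δ (aeval w (monomial m a)) = aeval w (monomial m (d a + a * lam c m)) := by
  rw [aeval_mon, aeval_mon, Derivation.leibniz, der_prod δ h, hd, smul_eq_mul, smul_eq_mul]
  unfold lam
  rw [map_add, map_mul]
  ring

/-- the induced derivation on polynomials -/
noncomputable def Th (c : Fin r → κ) (d : κ → κ) (p : MvPolynomial (Fin r) κ) :
    MvPolynomial (Fin r) κ :=
  ∑ m ∈ p.support, monomial m (d (coeff m p) + coeff m p * lam c m)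

lemma aeval_Th (δ : Derivation ℤ L L) {w : Fin r → L} {c : Fin r → κ} {d : κ → κ}
    (h : ∀ i, δ (w i) = algebraMap κ L (c i) * w i)
    (hd : ∀ a, δ (algebraMap κ L a) = algebraMap κ L (d a)) (p : MvPolynomial (Fin r) κ) :
    aeval w (Th c d p) = δ (aeval w p) := by
  conv_rhs => rw [p.as_sum]
  unfold Th
  rw [map_sum, map_sum, map_sum]
  exact Finset.sum_congr rfl fun m _ => (der_mon δ h hd m _).symm

lemma coeff_Th (c : Fin r → κ) (d : κ → κ) (p : MvPolynomial (Fin r) κ) (m : Fin r →₀ ℕ) :
    coeff m (Th c d p) = if m ∈ p.support then d (coeff m p) + coeff m p * lam c m else 0 := by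
  classical
  unfold Th
  rw [coeff_sum]
  simp only [coeff_monomial]
  rw [Finset.sum_ite_eq']

lemma support_Th (c : Fin r → κ) (d : κ → κ) (p : MvPolynomial (Fin r) κ) :
    (Th c d p).support ⊆ p.support := by
  intro m hm
  rw [mem_support_iff, coeff_Th] at hm
  by_contra h
  rw [if_neg h] at hm
  exact hm rfl

end

theorem alg : Pool.Agent.N754.GF.S_ALG := by
  classical
  intro κ L _ _ _ _ r w δ hκ hw hker hind p hp hX hj
  obtain ⟨j, hj⟩ := hj
  choose d hd using hκ
  choose c hc using hw
  have hinj : Function.Injective (aeval w : MvPolynomial (Fin r) κ →ₐ[κ] L) := hind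
  have hTh := aeval_Th δ hc hd
  refine ⟨Th c d p, hTh p, ?_⟩
  intro e he1 he2
  by_contra hu
  have he0 : e ≠ 0 := fun h => hp (zero_dvd_iff.1 (h ▸ he1))
  obtain ⟨H, hH, hHe⟩ := WfDvdMonoid.exists_irreducible_factor hu he0
  have hHp : H ∣ p := hHe.trans he1
  have hHq : H ∣ Th c d p := hHe.trans he2
  have hprime : Prime H := hH.prime
  obtain ⟨G, hG⟩ := hHp
  have hleib : Th c d p = Th c d H * G + H * Th c d G := by
    apply hinj
    rw [map_add, map_mul, map_mul, hTh, hTh, hTh, hG, map_mul, Derivation.leibniz, smul_eq_mul,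
      smul_eq_mul]
    ring
  have h1 : H ∣ Th c d H * G := by
    rw [hleib] at hHq
    exact (dvd_add_left (dvd_mul_right H _)).1 hHq
  rcases hprime.dvd_or_dvd h1 with h2 | h2
  · -- `H` divides its derivative
    obtain ⟨c0, hc0⟩ : ∃ c0 : κ, Th c d H = C c0 * H := by
      obtain ⟨u, hu'⟩ := h2
      by_cases h0 : Th c d H = 0
      · exact ⟨0, by rw [h0, C_0, zero_mul]⟩
      · have hu0 : u ≠ 0 := by
          rintro rfl
          rw [mul_zero] at hu'
          exact h0 hu'
        have h3 := totalDegree_mul_of_isDomain hH.ne_zero hu0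
        rw [← hu'] at h3
        have h4 : (Th c d H).totalDegree ≤ H.totalDegree :=
          Finset.sup_mono (support_Th c d H)
        have h5 : u.totalDegree = 0 := by omega
        rw [totalDegree_eq_zero_iff_eq_C] at h5
        refine ⟨coeff 0 u, ?_⟩
        rw [← h5, hu', mul_comm]
    have hm : ∀ m ∈ H.support, δ (aeval w (monomial m (coeff m H))) =
        algebraMap κ L c0 * aeval w (monomial m (coeff m H)) := by
      intro m hm
      have h3 := congrArg (coeff m) hc0
      rw [coeff_Th, if_pos hm, coeff_C_mul] at h3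
      rw [der_mon δ hc hd, h3, aeval_mon, aeval_mon, map_mul]
      ring
    have hne : ∀ m ∈ H.support, aeval w (monomial m (coeff m H)) ≠ 0 := by
      intro m hm h3
      rw [mem_support_iff] at hm
      have h4 : monomial m (coeff m H) = 0 := hinj (by rw [h3, map_zero])
      exact hm (monomial_eq_zero.1 h4)
    have huniq : ∀ m ∈ H.support, ∀ m' ∈ H.support, m = m' := by
      intro m h3 m' h4
      have h5 : δ (aeval w (monomial m (coeff m H)) / aeval w (monomial m' (coeff m' H))) = 0 := by
        rw [Derivation.leibniz_div, hm m h3, hm m' h4, smul_eq_mul, smul_eq_mul, smul_eq_mul]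
        ring
      obtain ⟨z, hz⟩ := hker _ h5
      rw [div_eq_iff (hne m' h4)] at hz
      have h6 : monomial m (coeff m H) = monomial m' (z * coeff m' H) := by
        apply hinj
        rw [hz, aeval_mon, aeval_mon, map_mul]
        ring
      have h7 := congrArg (coeff m) h6
      rw [coeff_monomial, coeff_monomial, if_pos rfl] at h7
      by_contra h8
      rw [if_neg (fun h9 => h8 h9.symm)] at h7
      exact (mem_support_iff.1 h3) h7
    obtain ⟨m, hmH⟩ : H.support.Nonempty := by
      rw [Finset.nonempty_iff_ne_empty]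
      intro h3
      exact hH.ne_zero (support_eq_empty.1 h3)
    have hHm : H = monomial m (coeff m H) := by
      ext m'
      rw [coeff_monomial]
      split_ifs with h3
      · rw [h3]
      · by_contra h4
        exact h3 (huniq m hmH m' (mem_support_iff.2 h4))
    have hm0 : m ≠ 0 := by
      rintro rfl
      apply hH.not_isUnit
      rw [hHm]
      have h3 : monomial 0 (coeff 0 H) = (C (coeff 0 H) : MvPolynomial (Fin r) κ) := rfl
      rw [h3]
      exact (isUnit_iff_ne_zero.2 (mem_support_iff.1 hmH)).map C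
    obtain ⟨i, hi⟩ : ∃ i, m i ≠ 0 := by
      by_contra h3
      push Not at h3
      exact hm0 (Finsupp.ext h3)
    apply hX i
    have h3 : (X i : MvPolynomial (Fin r) κ) ∣ H := by
      rw [hHm]
      exact X_dvd_monomial.2 (Or.inr hi)
    exact h3.trans ⟨G, hG⟩
  · -- `H ^ 2` divides `p`
    obtain ⟨G', hG'⟩ := h2
    apply hH.not_isUnit
    refine hj ⟨G, hG⟩ ?_
    refine ⟨pderiv j H * G' + pderiv j (H * G'), ?_⟩
    rw [hG, hG', Derivation.leibniz, smul_eq_mul, smul_eq_mul]
    ring

end Pool.Agent.N674.GF
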